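import Pool.Agent.Lib.H63F.D
import Pool.Agent.Lib.H56Z.X0

/-!
# H20S, file A: the support of a perturbed flow on an ordered vertex set

`Flow r f l ε x`: `x` is a flow on the arcs `i → j` (`r i < r j`) with out-degrees `2 + ε` at the first vertex `f`
and `1 + ε` at the inner vertices, and with in-degrees `1` at the inner vertices and `2 + (n - 1) ε` at the last
vertex `l`. `exists_arcs` (Hall): there are integral arcs in the support, with out-degrees `2, 1, .., 1, 0` and
in-degrees `0, 1, .., 1, 2`.
-/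

set_option autoImplicit false
set_option linter.unusedSectionVars false

namespace H20S

open Finset

/-- A perturbed flow. -/
structure Flow {V : Type*} [Fintype V] (r : V → ℕ) (f l : V) (ε : ℝ) (x : V → V → ℝ) : Prop where
  first : ∀ i, r f ≤ r i
  last : ∀ i, r i ≤ r l
  nonneg : ∀ i j, 0 ≤ x i j
  lt : ∀ i j, x i j ≠ 0 → r i < r j
  outf : ∑ j, x f j = 2 + ε
  out : ∀ i, i ≠ f → i ≠ l → ∑ j, x i j = 1 + ε
  inn : ∀ j, j ≠ f → j ≠ l → ∑ i, x i j = 1
  inl : ∑ i, x i l = 2 + ((Fintype.card V : ℝ) - 1) * ε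

variable {V : Type*} [Fintype V] [DecidableEq V] {r : V → ℕ} {f l : V} {ε : ℝ} {x : V → V → ℝ}

/-- The tail of the arc number `i`: the copy `l` of `f` is sent to `f`. -/
def tl (f l i : V) : V := if i = l then f else i

/-- The head number `j`: the copy `f` of `l` is sent to `l`. -/
def hd (f l j : V) : V := if j = f then l else j

/-- The multiplicity. -/
noncomputable def mu (f l j : V) : ℝ := if j = f then 2 else if j = l then 2 else 1

theorem mu_pos (f l j : V) : 0 < mu f l j := by
  unfold mu; split_ifs <;> norm_num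

theorem sum_hd (hfl : f ≠ l) (h : V → ℝ) (h0 : h f = 0) : ∑ j, h (hd f l j) / mu f l j = ∑ j, h j := by
  have h1 : ∀ j, h (hd f l j) / mu f l j =
      h j + (if j = f then h l / 2 else 0) - (if j = l then h l / 2 else 0) := by
    intro j
    unfold hd mu
    by_cases h2 : j = f
    · rw [if_pos h2, if_pos h2, if_pos h2, if_neg (h2 ▸ hfl), h2, h0]
      ring
    · rw [if_neg h2, if_neg h2, if_neg h2]
      by_cases h3 : j = l
      · rw [if_pos h3, if_pos h3, h3]; ring
      · rw [if_neg h3, if_neg h3]; ring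
  rw [sum_congr rfl fun j _ => h1 j, sum_sub_distrib, sum_add_distrib, sum_ite_eq' univ f, sum_ite_eq' univ l,
    if_pos (mem_univ _), if_pos (mem_univ _)]
  ring

theorem sum_tl (hfl : f ≠ l) (h : V → ℝ) (h0 : h l = 0) : ∑ j, h (tl f l j) / mu f l j = ∑ j, h j := by
  have h1 : ∀ j, h (tl f l j) / mu f l j =
      h j - (if j = f then h f / 2 else 0) + (if j = l then h f / 2 else 0) := by
    intro j
    unfold tl mu
    by_cases h2 : j = f
    · rw [if_pos h2, if_pos h2, if_neg (h2 ▸ hfl), if_neg (h2 ▸ hfl), h2]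
      ring
    · rw [if_neg h2, if_neg h2]
      by_cases h3 : j = l
      · rw [if_pos h3, if_pos h3, if_pos h3, h3, h0]; ring
      · rw [if_neg h3, if_neg h3, if_neg h3]; ring
  rw [sum_congr rfl fun j _ => h1 j, sum_add_distrib, sum_sub_distrib, sum_ite_eq' univ f, sum_ite_eq' univ l,
    if_pos (mem_univ _), if_pos (mem_univ _)]
  ring

theorem Flow.to_f (h : Flow r f l ε x) (i : V) : x i f = 0 := by
  by_contra h1
  have h2 := h.lt i f h1
  have h3 := h.first i
  omega

theorem Flow.from_l (h : Flow r f l ε x) (j : V) : x l j = 0 := by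
  by_contra h1
  have h2 := h.lt l j h1
  have h3 := h.last j
  omega

theorem Flow.ne (h : Flow r f l ε x) (hε : 0 < ε) : f ≠ l := by
  intro h1
  have h2 := h.outf
  rw [h1, sum_congr rfl fun j _ => h.from_l j, sum_const_zero] at h2
  linarith

theorem exists_arcs (hε : 0 < ε) (hε1 : ε * ((Fintype.card V : ℝ) - 1) < 1) (h : Flow r f l ε x) :
    ∃ g : V → V, Function.Injective g ∧ ∀ i, x (tl f l i) (hd f l (g i)) ≠ 0 := by
  classical
  have hfl := h.ne hε
  have hn : (0 : ℝ) ≤ (Fintype.card V : ℝ) - 1 := by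
    have h1 : 1 ≤ Fintype.card V := Fintype.card_pos_iff.2 ⟨f⟩
    have h2 : (1 : ℝ) ≤ (Fintype.card V : ℝ) := by exact_mod_cast h1
    linarith
  set c : ℝ := ((Fintype.card V : ℝ) - 1) * ε / 2 with hc
  have hc0 : 0 ≤ c := by positivity
  set y : V → V → ℝ := fun i j => x (tl f l i) (hd f l j) / mu f l i / mu f l j with hy
  have hy0 : ∀ i j, 0 ≤ y i j := fun i j =>
    div_nonneg (div_nonneg (h.nonneg _ _) (mu_pos f l i).le) (mu_pos f l j).le
  have hrow : ∀ i, 1 ≤ ∑ j, y i j := by
    intro i
    have h1 : ∑ j, y i j = ∑ j, x (tl f l i) j / mu f l i := by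
      have := sum_hd hfl (fun j => x (tl f l i) j / mu f l i) (by simp only [h.to_f, zero_div])
      rw [← this]
    rw [h1, ← sum_div, le_div_iff₀ (mu_pos f l i), one_mul]
    by_cases h2 : i = l
    · have h4 : tl f l i = f := if_pos h2
      have h5 : mu f l i = 2 := by
        unfold mu; rw [if_neg (fun h3 => hfl (h3.symm.trans h2)), if_pos h2]
      rw [h4, h5, h.outf]
      linarith
    · have h4 : tl f l i = i := if_neg h2
      rw [h4]
      by_cases h3 : i = f
      · have h5 : mu f l i = 2 := by unfold mu; rw [if_pos h3]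
        rw [h5, h3, h.outf]; linarith
      · have h5 : mu f l i = 1 := by unfold mu; rw [if_neg h3, if_neg h2]
        rw [h5, h.out i h3 h2]; linarith
  have hcol : ∀ j, ∑ i, y i j = 1 + ((if j = f then c else 0) + (if j = l then c else 0)) := by
    intro j
    have h1 : ∑ i, y i j = (∑ i, x i (hd f l j)) / mu f l j := by
      have := sum_tl hfl (fun i => x i (hd f l j)) (h.from_l _)
      rw [← this, sum_div]
    rw [h1]
    by_cases h2 : j = f
    · have h4 : hd f l j = l := if_pos h2
      have h5 : mu f l j = 2 := by unfold mu; rw [if_pos h2]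
      rw [h4, h5, if_pos h2, if_neg (h2 ▸ hfl), h.inl, hc]
      ring
    · have h4 : hd f l j = j := if_neg h2
      rw [h4, if_neg h2]
      by_cases h3 : j = l
      · have h5 : mu f l j = 2 := by unfold mu; rw [if_neg h2, if_pos h3]
        rw [h5, if_pos h3, h3, h.inl, hc]; ring
      · have h5 : mu f l j = 1 := by unfold mu; rw [if_neg h2, if_neg h3]
        rw [h5, if_neg h3, h.inn j h2 h3]; norm_num
  have hall : ∀ A : Finset V, A.card ≤
      (A.biUnion fun i => univ.filter fun j => x (tl f l i) (hd f l j) ≠ 0).card := by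
    intro A
    set J := A.biUnion fun i => univ.filter fun j => x (tl f l i) (hd f l j) ≠ 0 with hJ
    have h1 : (A.card : ℝ) ≤ ∑ i ∈ A, ∑ j, y i j := by
      have := sum_le_sum fun i (_ : i ∈ A) => hrow i
      rwa [sum_const, nsmul_eq_mul, mul_one] at this
    have h2 : ∑ i ∈ A, ∑ j, y i j = ∑ i ∈ A, ∑ j ∈ J, y i j := by
      refine sum_congr rfl fun i hi => ?_
      refine (sum_subset (subset_univ J) fun j _ hj => ?_).symm
      have h3 : x (tl f l i) (hd f l j) = 0 := by
        by_contra h4
        exact hj (mem_biUnion.2 ⟨i, hi, mem_filter.2 ⟨mem_univ _, h4⟩⟩)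
      simp only [hy, h3, zero_div]
    have h3 : ∑ i ∈ A, ∑ j ∈ J, y i j ≤ ∑ j ∈ J, ∑ i, y i j := by
      rw [sum_comm]
      exact sum_le_sum fun j _ => sum_le_univ_sum_of_nonneg fun i => hy0 i j
    have h4 : ∑ j ∈ J, ∑ i, y i j ≤ J.card + 2 * c := by
      rw [sum_congr rfl fun j _ => hcol j, sum_add_distrib, sum_add_distrib, sum_const, nsmul_eq_mul,
        mul_one, sum_ite_eq' J f, sum_ite_eq' J l]
      split_ifs <;> linarith
    have h5 : (A.card : ℝ) < ((J.card + 1 : ℕ) : ℝ) := by
      push_cast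
      have : 2 * c < 1 := by rw [hc]; linarith [mul_comm ε ((Fintype.card V : ℝ) - 1)]
      linarith
    have h6 : A.card < J.card + 1 := by exact_mod_cast h5
    omega
  obtain ⟨g, hg, hg1⟩ := (Finset.all_card_le_biUnion_card_iff_exists_injective _).1 hall
  exact ⟨g, hg, fun i => (mem_filter.1 (hg1 i)).2⟩

end H20S
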