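import Pool.Agent.Lib.H20S.A

/-!
# H20S, file B: the arcs of `exists_arcs` form an integral fractional Hamiltonian cycle
-/

set_option autoImplicit false
set_option linter.unusedSectionVars false

namespace H20S

open Finset H63F

variable {V : Type*} [Fintype V] [DecidableEq V] {r : V → ℕ} {f l : V} {g : V → V}

private theorem sum_comp_tl (F : V → ℝ) : ∑ i, F (tl f l i) = ∑ i, F i + F f - F l := by
  have h1 : ∀ i, F (tl f l i) = F i + (if i = l then F f - F l else 0) := by
    intro i
    unfold tl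
    by_cases h2 : i = l
    · rw [if_pos h2, if_pos h2, h2]; ring
    · rw [if_neg h2, if_neg h2, add_zero]
  rw [sum_congr rfl fun i _ => h1 i, sum_add_distrib, sum_ite_eq' univ l, if_pos (mem_univ _)]
  ring

private theorem sum_comp_hd (F : V → ℝ) : ∑ i, F (hd f l i) = ∑ i, F i + F l - F f := by
  have h1 : ∀ i, F (hd f l i) = F i + (if i = f then F l - F f else 0) := by
    intro i
    unfold hd
    by_cases h2 : i = f
    · rw [if_pos h2, if_pos h2, h2]; ring
    · rw [if_neg h2, if_neg h2, add_zero]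
  rw [sum_congr rfl fun i _ => h1 i, sum_add_distrib, sum_ite_eq' univ f, if_pos (mem_univ _)]
  ring

/-- The edge number `i`. -/
def ed (f l : V) (g : V → V) (i : V) : Sym2 V := s(tl f l i, hd f l (g i))

private theorem ed_inj (hfl : f ≠ l) (hV : 3 ≤ Fintype.card V) (hg : Function.Injective g)
    (hr : ∀ i, r (tl f l i) < r (hd f l (g i))) : Function.Injective (ed f l g) := by
  intro i j hij
  by_contra hne
  unfold ed at hij
  rcases Sym2.eq_iff.1 hij with ⟨h1, h2⟩ | ⟨h1, h2⟩
  · have h3 : (i = f ∧ j = l) ∨ (i = l ∧ j = f) := by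
      unfold tl at h1
      by_cases hi : i = l
      · by_cases hj : j = l
        · exact absurd (hi.trans hj.symm) hne
        · rw [if_pos hi, if_neg hj] at h1
          exact Or.inr ⟨hi, h1.symm⟩
      · by_cases hj : j = l
        · rw [if_neg hi, if_pos hj] at h1
          exact Or.inl ⟨h1, hj⟩
        · rw [if_neg hi, if_neg hj] at h1
          exact absurd h1 hne
    have h4 : (g i = f ∧ g j = l) ∨ (g i = l ∧ g j = f) := by
      have hne' : g i ≠ g j := fun h5 => hne (hg h5)
      unfold hd at h2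
      by_cases hi : g i = f
      · by_cases hj : g j = f
        · exact absurd (hi.trans hj.symm) hne'
        · rw [if_pos hi, if_neg hj] at h2
          exact Or.inl ⟨hi, h2.symm⟩
      · by_cases hj : g j = f
        · rw [if_neg hi, if_pos hj] at h2
          exact Or.inr ⟨h2, hj⟩
        · rw [if_neg hi, if_neg hj] at h2
          exact absurd h2 hne'
    have h5 : ∀ k, k ≠ f → k ≠ l → g k ≠ f ∧ g k ≠ l := by
      intro k hk1 hk2
      have h6 : k ≠ i ∧ k ≠ j := by
        rcases h3 with ⟨ha, hb⟩ | ⟨ha, hb⟩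
        · exact ⟨ha ▸ hk1, hb ▸ hk2⟩
        · exact ⟨ha ▸ hk2, hb ▸ hk1⟩
      have h7 : g k ≠ g i := fun h8 => h6.1 (hg h8)
      have h8 : g k ≠ g j := fun h8 => h6.2 (hg h8)
      rcases h4 with ⟨ha, hb⟩ | ⟨ha, hb⟩
      · exact ⟨ha ▸ h7, hb ▸ h8⟩
      · exact ⟨hb ▸ h8, ha ▸ h7⟩
    have h6 : (univ \ {f, l} : Finset V).Nonempty := by
      rw [← card_pos, card_sdiff_of_subset (subset_univ _), card_univ, card_pair hfl]
      omega
    obtain ⟨m, hm1, hm2⟩ := exists_max_image _ r h6
    rw [mem_sdiff, mem_insert, mem_singleton, not_or] at hm1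
    have h7 := h5 m hm1.2.1 hm1.2.2
    have h8 := hr m
    have h9 : tl f l m = m := if_neg hm1.2.2
    have h10 : hd f l (g m) = g m := if_neg h7.1
    rw [h9, h10] at h8
    have h11 := hm2 (g m) (by
      rw [mem_sdiff, mem_insert, mem_singleton, not_or]
      exact ⟨mem_univ _, h7.1, h7.2⟩)
    omega
  · have h3 := hr i
    have h4 := hr j
    rw [h1, h2] at h3
    omega

/-- The number of arcs with the edge `e`. -/
noncomputable def yy (f l : V) (g : V → V) (e : Sym2 V) : ℝ := ∑ i, if e = ed f l g i then 1 else 0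

private theorem yy_int (hi : Function.Injective (ed f l g)) (e : Sym2 V) :
    yy f l g e = 0 ∨ yy f l g e = 1 := by
  unfold yy
  by_cases h : ∃ i, e = ed f l g i
  · obtain ⟨i, rfl⟩ := h
    right
    rw [sum_eq_single i]
    · rw [if_pos rfl]
    · intro j _ hj
      rw [if_neg]
      exact fun h1 => hj (hi h1).symm
    · intro h1; exact absurd (mem_univ _) h1
  · left
    refine sum_eq_zero fun i _ => ?_
    rw [if_neg fun h1 => h ⟨i, h1⟩]

private theorem yy_cut (S : Finset V) : cutw (yy f l g) S = ∑ i, px (ed f l g i) S := by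
  unfold cutw yy
  have h1 : ∀ e : Sym2 V, (∑ i, if e = ed f l g i then (1 : ℝ) else 0) * px e S =
      ∑ i, if e = ed f l g i then px e S else 0 := by
    intro e
    rw [sum_mul]
    refine sum_congr rfl fun i _ => ?_
    split_ifs <;> ring
  rw [sum_congr rfl fun e _ => h1 e, sum_comm]
  refine sum_congr rfl fun i _ => ?_
  rw [sum_ite_eq' univ (ed f l g i), if_pos (mem_univ _)]

private theorem px_eq (a b : V) (S : Finset V) :
    px s(a, b) S = (if a ∈ S ∧ b ∉ S then 1 else 0) + (if b ∈ S ∧ a ∉ S then 1 else 0) := by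
  by_cases ha : a ∈ S
  · by_cases hb : b ∈ S
    · rw [H56Z.px_zero ⟨fun _ => hb, fun _ => ha⟩, if_neg (fun h => h.2 hb), if_neg (fun h => h.2 ha), add_zero]
    · rw [H56Z.px_one ha hb, if_pos ⟨ha, hb⟩, if_neg (fun h => hb h.1), add_zero]
  · by_cases hb : b ∈ S
    · rw [Sym2.eq_swap, H56Z.px_one hb ha, if_neg (fun h => ha h.1), if_pos ⟨hb, ha⟩, zero_add]
    · rw [H56Z.px_zero ⟨fun h => absurd h ha, fun h => absurd h hb⟩, if_neg (fun h => ha h.1),
        if_neg (fun h => hb h.1), add_zero]

/-- THE INTEGRAL FRACTIONAL HAMILTONIAN CYCLE. -/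
theorem fracHam_of_arcs (hfl : f ≠ l) (hV : 3 ≤ Fintype.card V) (hg : Function.Injective g)
    (hr : ∀ i, r (tl f l i) < r (hd f l (g i)))
    {G : Finset (Sym2 V)} (hG : ∀ i, s(tl f l i, hd f l (g i)) ∈ G) (hloop : ∀ v, s(v, v) ∉ G) :
    ∃ y : Sym2 V → ℝ, FracHam G y ∧ ∀ e, y e = 0 ∨ y e = 1 := by
  classical
  have hinj := ed_inj hfl hV hg hr
  have hgb : Function.Bijective g := Finite.injective_iff_bijective.1 hg
  have htot : ∀ F : V → ℝ, ∑ i, F (hd f l (g i)) = ∑ i, F i + F l - F f := by
    intro F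
    rw [hgb.sum_comp (fun j => F (hd f l j)), sum_comp_hd]
  refine ⟨yy f l g, ⟨?_, ?_, hloop, ?_, ?_⟩, yy_int hinj⟩
  · intro e
    rcases yy_int hinj e with h | h <;> rw [h] <;> norm_num
  · intro e he
    unfold yy
    refine sum_eq_zero fun i _ => ?_
    rw [if_neg]
    intro h1
    exact he (h1 ▸ hG i)
  · intro v
    rw [yy_cut]
    have h1 : ∀ i, px (ed f l g i) {v} =
        (if tl f l i = v then (1 : ℝ) else 0) + (if hd f l (g i) = v then 1 else 0) := by
      intro i
      have h2 : tl f l i ≠ hd f l (g i) := fun h3 => by have := hr i; rw [h3] at this; omega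
      unfold ed
      rw [px_eq]
      simp only [mem_singleton]
      by_cases h3 : tl f l i = v
      · have h4 : hd f l (g i) ≠ v := fun h5 => h2 (h3.trans h5.symm)
        rw [if_pos ⟨h3, h4⟩, if_pos h3, if_neg (fun h => h4 h.1), if_neg h4]
      · by_cases h4 : hd f l (g i) = v
        · rw [if_neg (fun h => h3 h.1), if_neg h3, if_pos ⟨h4, h3⟩, if_pos h4]
        · rw [if_neg (fun h => h3 h.1), if_neg h3, if_neg (fun h => h4 h.1), if_neg h4]
    rw [sum_congr rfl fun i _ => h1 i, sum_add_distrib, sum_comp_tl (fun i => if i = v then (1 : ℝ) else 0),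
      htot (fun i => if i = v then (1 : ℝ) else 0), sum_ite_eq' univ v, if_pos (mem_univ _)]
    ring
  · intro S hS hS'
    rw [yy_cut]
    have h1 : ∑ i, px (ed f l g i) S = ∑ i, (if tl f l i ∈ S ∧ hd f l (g i) ∉ S then (1 : ℝ) else 0) +
        ∑ i, (if hd f l (g i) ∈ S ∧ tl f l i ∉ S then (1 : ℝ) else 0) := by
      rw [← sum_add_distrib]
      exact sum_congr rfl fun i _ => px_eq _ _ _
    have h2 : ∑ i, (if tl f l i ∈ S ∧ hd f l (g i) ∉ S then (1 : ℝ) else 0) -
        ∑ i, (if hd f l (g i) ∈ S ∧ tl f l i ∉ S then (1 : ℝ) else 0) =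
        2 * (if f ∈ S then 1 else 0) - 2 * (if l ∈ S then 1 else 0) := by
      rw [← sum_sub_distrib]
      have h3 : ∀ i, (if tl f l i ∈ S ∧ hd f l (g i) ∉ S then (1 : ℝ) else 0) -
          (if hd f l (g i) ∈ S ∧ tl f l i ∉ S then (1 : ℝ) else 0) =
          (if tl f l i ∈ S then 1 else 0) - (if hd f l (g i) ∈ S then 1 else 0) := by
        intro i
        by_cases ha : tl f l i ∈ S <;> by_cases hb : hd f l (g i) ∈ S <;> simp [ha, hb]
      rw [sum_congr rfl fun i _ => h3 i, sum_sub_distrib, sum_comp_tl (fun i => if i ∈ S then (1 : ℝ) else 0),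
        htot (fun i => if i ∈ S then (1 : ℝ) else 0)]
      ring
    have hL : 0 ≤ ∑ i, (if tl f l i ∈ S ∧ hd f l (g i) ∉ S then (1 : ℝ) else 0) :=
      sum_nonneg fun i _ => by split_ifs <;> norm_num
    have hE : 0 ≤ ∑ i, (if hd f l (g i) ∈ S ∧ tl f l i ∉ S then (1 : ℝ) else 0) :=
      sum_nonneg fun i _ => by split_ifs <;> norm_num
    rw [h1]
    by_cases hf : f ∈ S
    · by_cases hl : l ∈ S
      · rw [if_pos hf, if_pos hl] at h2
        have h4 : (univ \ S).Nonempty := by
          rw [sdiff_nonempty]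
          exact fun h5 => hS' (eq_univ_iff_forall.2 fun v => h5 (mem_univ v))
        obtain ⟨m, hm1, hm2⟩ := exists_max_image _ r h4
        have hmS : m ∉ S := (mem_sdiff.1 hm1).2
        have hml : m ≠ l := fun h5 => hmS (h5 ▸ hl)
        have h5 : tl f l m = m := if_neg hml
        have h6 := hr m
        rw [h5] at h6
        have h7 : hd f l (g m) ∈ S := by
          by_contra h8
          have := hm2 _ (mem_sdiff.2 ⟨mem_univ _, h8⟩)
          omega
        have h8 : (1 : ℝ) ≤ ∑ i, (if hd f l (g i) ∈ S ∧ tl f l i ∉ S then (1 : ℝ) else 0) := by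
          have := single_le_sum (s := univ)
            (f := fun i => if hd f l (g i) ∈ S ∧ tl f l i ∉ S then (1 : ℝ) else 0)
            (fun i _ => by split_ifs <;> norm_num) (mem_univ m)
          rwa [if_pos ⟨h7, by rw [h5]; exact hmS⟩] at this
        linarith
      · rw [if_pos hf, if_neg hl] at h2
        linarith
    · by_cases hl : l ∈ S
      · rw [if_neg hf, if_pos hl] at h2
        linarith
      · rw [if_neg hf, if_neg hl] at h2
        obtain ⟨m, hmS, hm2⟩ := exists_max_image _ r hS
        have hml : m ≠ l := fun h5 => hl (h5 ▸ hmS)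
        have h5 : tl f l m = m := if_neg hml
        have h6 := hr m
        rw [h5] at h6
        have h7 : hd f l (g m) ∉ S := by
          intro h8
          have := hm2 _ h8
          omega
        have h8 : (1 : ℝ) ≤ ∑ i, (if tl f l i ∈ S ∧ hd f l (g i) ∉ S then (1 : ℝ) else 0) := by
          have := single_le_sum (s := univ)
            (f := fun i => if tl f l i ∈ S ∧ hd f l (g i) ∉ S then (1 : ℝ) else 0)
            (fun i _ => by split_ifs <;> norm_num) (mem_univ m)
          rwa [if_pos ⟨by rw [h5]; exact hmS, h7⟩] at this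
        linarith

end H20S
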