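import Pool.Agent.Lib.H20S.B

/-!
# H20S, file C: the support of the flow has at least `2n - 3` arcs, and the main theorem
-/

set_option autoImplicit false
set_option linter.unusedSectionVars false

namespace H20S

open Finset H63F

variable {V : Type*} [Fintype V] [DecidableEq V] {r : V → ℕ} {f l : V} {ε : ℝ} {x : V → V → ℝ}

/-- The bipartite graph of the arcs. -/
private def bip (f l : V) (x : V → V → ℝ) : SimpleGraph ({i : V // i ≠ l} ⊕ {j : V // j ≠ f}) :=
  SimpleGraph.fromRel fun a b => ∃ i j, a = Sum.inl i ∧ b = Sum.inr j ∧ x i.1 j.1 ≠ 0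

private theorem bip_adj (i : {i : V // i ≠ l}) (j : {j : V // j ≠ f}) (h : x i.1 j.1 ≠ 0) :
    (bip f l x).Adj (Sum.inl i) (Sum.inr j) := by
  unfold bip
  rw [SimpleGraph.fromRel_adj]
  exact ⟨Sum.inl_ne_inr, Or.inl ⟨i, j, rfl, rfl, h⟩⟩

private theorem bip_conn (hε : 0 < ε) (hε1 : ε * ((Fintype.card V : ℝ) - 1) < 1) (h : Flow r f l ε x) :
    (bip f l x).Connected := by
  classical
  have hfl := h.ne hε
  rw [SimpleGraph.connected_iff_exists_forall_reachable]
  refine ⟨Sum.inr ⟨l, hfl.symm⟩, ?_⟩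
  set r0 : {i : V // i ≠ l} ⊕ {j : V // j ≠ f} := Sum.inr ⟨l, hfl.symm⟩ with hr0
  set I : Finset V := univ.filter fun i => ∃ hi : i ≠ l, ¬ (bip f l x).Reachable r0 (Sum.inl ⟨i, hi⟩) with hI
  set J : Finset V := univ.filter fun j => ∃ hj : j ≠ f, ¬ (bip f l x).Reachable r0 (Sum.inr ⟨j, hj⟩) with hJ
  have hIJ : ∀ i ∈ I, ∀ j, x i j ≠ 0 → j ∈ J := by
    intro i hi j hx
    obtain ⟨h1, h2⟩ := (mem_filter.1 hi).2
    have h3 : j ≠ f := fun h4 => hx (h4 ▸ h.to_f i)
    refine mem_filter.2 ⟨mem_univ _, h3, fun h4 => h2 (h4.trans ?_)⟩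
    exact (bip_adj (f := f) (l := l) ⟨i, h1⟩ ⟨j, h3⟩ hx).symm.reachable
  have hJI : ∀ j ∈ J, ∀ i, x i j ≠ 0 → i ∈ I := by
    intro j hj i hx
    obtain ⟨h1, h2⟩ := (mem_filter.1 hj).2
    have h3 : i ≠ l := fun h4 => hx (h4 ▸ h.from_l j)
    refine mem_filter.2 ⟨mem_univ _, h3, fun h4 => h2 (h4.trans ?_)⟩
    exact (bip_adj (f := f) (l := l) ⟨i, h3⟩ ⟨j, h1⟩ hx).reachable
  have hlJ : l ∉ J := by
    intro h1
    obtain ⟨h2, h3⟩ := (mem_filter.1 h1).2
    exact h3 (SimpleGraph.Reachable.refl _)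
  have hfJ : f ∉ J := by
    intro h1
    obtain ⟨h2, h3⟩ := (mem_filter.1 h1).2
    exact h2 rfl
  have hlI : l ∉ I := by
    intro h1
    obtain ⟨h2, h3⟩ := (mem_filter.1 h1).2
    exact h2 rfl
  have e1 : ∑ i ∈ I, ∑ j, x i j = ∑ i ∈ I, ∑ j ∈ J, x i j := by
    refine sum_congr rfl fun i hi => (sum_subset (subset_univ J) fun j _ hj => ?_).symm
    by_contra h1
    exact hj (hIJ i hi j h1)
  have e2 : ∑ j ∈ J, ∑ i, x i j = ∑ j ∈ J, ∑ i ∈ I, x i j := by
    refine sum_congr rfl fun j hj => (sum_subset (subset_univ I) fun i _ hi => ?_).symm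
    by_contra h1
    exact hi (hJI j hj i h1)
  have e3 : ∑ j ∈ J, ∑ i, x i j = J.card := by
    rw [sum_congr rfl fun j hj => h.inn j (fun h1 => hfJ (h1 ▸ hj)) (fun h1 => hlJ (h1 ▸ hj)), sum_const,
      nsmul_eq_mul, mul_one]
  have e4 : ∑ i ∈ I, ∑ j, x i j = I.card * (1 + ε) + (if f ∈ I then 1 else 0) := by
    have h1 : ∀ i ∈ I, ∑ j, x i j = (1 + ε) + (if i = f then 1 else 0) := by
      intro i hi
      by_cases h2 : i = f
      · rw [if_pos h2, h2, h.outf]; ring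
      · rw [if_neg h2, h.out i h2 (fun h3 => hlI (h3 ▸ hi)), add_zero]
    rw [sum_congr rfl h1, sum_add_distrib, sum_const, nsmul_eq_mul, sum_ite_eq' I f]
  have e5 : ∑ i ∈ I, ∑ j ∈ J, x i j = ∑ j ∈ J, ∑ i ∈ I, x i j := sum_comm
  have hIc : (I.card : ℝ) ≤ (Fintype.card V : ℝ) - 1 := by
    have h1 : I.card < Fintype.card V := by
      rw [← card_univ]
      exact card_lt_card ⟨subset_univ _, fun h2 => hlI (h2 (mem_univ _))⟩
    have h2 : ((I.card + 1 : ℕ) : ℝ) ≤ (Fintype.card V : ℝ) := by exact_mod_cast h1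
    push_cast at h2
    linarith
  have e6 : (J.card : ℝ) = I.card + ε * I.card + (if f ∈ I then 1 else 0) := by
    rw [← e3, e2, ← e5, ← e1, e4]; ring
  have e7 : ε * (I.card : ℝ) < 1 := lt_of_le_of_lt (mul_le_mul_of_nonneg_left hIc hε.le) hε1
  have e8 : (0 : ℝ) ≤ ε * (I.card : ℝ) := by positivity
  obtain ⟨z, hz⟩ : ∃ z : ℕ, (z : ℝ) = if f ∈ I then (1 : ℝ) else 0 := by
    by_cases h1 : f ∈ I
    · exact ⟨1, by rw [if_pos h1]; norm_num⟩
    · exact ⟨0, by rw [if_neg h1]; norm_num⟩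
  rw [← hz] at e6
  have e9 : J.card = I.card + z := by
    have h1 : J.card < I.card + z + 1 := by
      have : (J.card : ℝ) < ((I.card + z + 1 : ℕ) : ℝ) := by push_cast; linarith
      exact_mod_cast this
    have h2 : I.card + z ≤ J.card := by
      have : ((I.card + z : ℕ) : ℝ) ≤ (J.card : ℝ) := by push_cast; linarith
      exact_mod_cast this
    omega
  have e10 : I.card = 0 := by
    have h1 : ε * (I.card : ℝ) = 0 := by
      rw [e9] at e6
      push_cast at e6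
      linarith
    rcases mul_eq_zero.1 h1 with h2 | h2
    · exact absurd h2 hε.ne'
    · exact_mod_cast h2
  have hI0 : I = ∅ := card_eq_zero.1 e10
  have hJ0 : J = ∅ := by
    refine card_eq_zero.1 ?_
    have hz0 : z = 0 := by
      rw [hI0, if_neg (notMem_empty _)] at hz
      exact_mod_cast hz
    omega
  rintro (⟨i, hi⟩ | ⟨j, hj⟩)
  · by_contra h1
    have h2 : i ∈ I := mem_filter.2 ⟨mem_univ _, hi, h1⟩
    rw [hI0] at h2
    exact absurd h2 (notMem_empty _)
  · by_contra h1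
    have h2 : j ∈ J := mem_filter.2 ⟨mem_univ _, hj, h1⟩
    rw [hJ0] at h2
    exact absurd h2 (notMem_empty _)

private theorem card_ne (a : V) : Fintype.card {i : V // i ≠ a} + 1 = Fintype.card V := by
  rw [Fintype.card_subtype, filter_ne', card_erase_of_mem (mem_univ _), card_univ]
  have : 0 < Fintype.card V := Fintype.card_pos_iff.2 ⟨a⟩
  omega

/-- The support has at least `2n - 3` edges. -/
theorem card_support (hε : 0 < ε) (hε1 : ε * ((Fintype.card V : ℝ) - 1) < 1) (h : Flow r f l ε x)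
    {G : Finset (Sym2 V)} (hG : ∀ i j, x i j ≠ 0 → s(i, j) ∈ G) : 2 * Fintype.card V ≤ G.card + 3 := by
  classical
  have h1 := (bip_conn hε hε1 h).card_vert_le_card_edgeSet_add_one
  rw [Nat.card_eq_fintype_card (α := {i : V // i ≠ l} ⊕ {j : V // j ≠ f}), Fintype.card_sum] at h1
  have h2 := card_ne l
  have h3 := card_ne f
  have h4 : Nat.card (bip f l x).edgeSet ≤ G.card := by
    rw [Nat.card_coe_set_eq, ← Set.ncard_coe_finset G]
    have key : ∀ e ∈ (bip f l x).edgeSet, ∃ i j, e = s(Sum.inl i, Sum.inr j) ∧ x i.1 j.1 ≠ 0 := by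
      intro e he
      induction e with | _ a b
      rw [SimpleGraph.mem_edgeSet] at he
      unfold bip at he
      rw [SimpleGraph.fromRel_adj] at he
      rcases he.2 with ⟨i, j, rfl, rfl, h5⟩ | ⟨i, j, rfl, rfl, h5⟩
      · exact ⟨i, j, rfl, h5⟩
      · exact ⟨i, j, Sym2.eq_swap, h5⟩
    refine Set.ncard_le_ncard_of_injOn (Sym2.map (Sum.elim Subtype.val Subtype.val)) ?_ ?_ (finite_toSet G)
    · intro e he
      obtain ⟨i, j, rfl, h5⟩ := key e he
      rw [Sym2.map_mk]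
      exact mem_coe.2 (hG _ _ h5)
    · intro e he e' he' hee
      obtain ⟨i, j, rfl, h5⟩ := key e he
      obtain ⟨i', j', rfl, h6⟩ := key e' he'
      rw [Sym2.map_mk, Sym2.map_mk] at hee
      rcases Sym2.eq_iff.1 hee with ⟨h7, h8⟩ | ⟨h7, h8⟩
      · rw [Sum.elim_inl, Sum.elim_inl] at h7
        rw [Sum.elim_inr, Sum.elim_inr] at h8
        rw [Subtype.ext h7, Subtype.ext h8]
      · rw [Sum.elim_inl, Sum.elim_inr] at h7
        rw [Sum.elim_inr, Sum.elim_inl] at h8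
        have h9 := h.lt _ _ h5
        have h10 := h.lt _ _ h6
        rw [h7, h8] at h9
        omega
  omega

/-- MAIN THEOREM: the support of the flow carries an integral fractional Hamiltonian cycle (a Hamiltonian cycle) and
has at least `2n - 3` edges. -/
theorem flow_main (hV : 3 ≤ Fintype.card V) (hε : 0 < ε) (hε1 : ε * ((Fintype.card V : ℝ) - 1) < 1)
    (h : Flow r f l ε x) {G : Finset (Sym2 V)} (hG : ∀ i j, x i j ≠ 0 → s(i, j) ∈ G)
    (hloop : ∀ v, s(v, v) ∉ G) :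
    2 * Fintype.card V ≤ G.card + 3 ∧ ∃ y : Sym2 V → ℝ, FracHam G y ∧ ∀ e, y e = 0 ∨ y e = 1 := by
  obtain ⟨g, hg, hx⟩ := exists_arcs hε hε1 h
  exact ⟨card_support hε hε1 h hG,
    fracHam_of_arcs (h.ne hε) hV hg (fun i => h.lt _ _ (hx i)) (fun i => hG _ _ (hx i)) hloop⟩

end H20S
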