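import Mathlib

/-!
# H20S, file R: integrality of the transportation polytope

If a real matrix `y ≥ 0` has the row and column sums of a matrix of natural numbers, then there is a matrix `z` of
natural numbers with the same row and column sums whose support is contained in the support of `y`.
-/

set_option autoImplicit false
set_option linter.unusedSectionVars false

namespace H20S

open Finset

variable {V : Type*} [Fintype V] [DecidableEq V]

private theorem sum_sig (a : V → ℕ) (F : V → ℝ) : ∑ p : (Σ i, Fin (a i)), F p.1 = ∑ i, a i * F i := by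
  rw [Fintype.sum_sigma]
  refine sum_congr rfl fun i _ => ?_
  change ∑ _k : Fin (a i), F i = _
  rw [sum_const, card_univ, Fintype.card_fin, nsmul_eq_mul]

private theorem card_sig (a : V → ℕ) : Fintype.card (Σ i, Fin (a i)) = ∑ i, a i := by
  rw [Fintype.card_sigma]
  exact sum_congr rfl fun i _ => Fintype.card_fin _

theorem round_aux (a b : V → ℕ) (y : V → V → ℝ) (hy : ∀ i j, 0 ≤ y i j)
    (hrow : ∀ i, ∑ j, y i j = a i) (hcol : ∀ j, ∑ i, y i j = b j) :
    ∃ z : V → V → ℕ, (∀ i j, z i j ≠ 0 → y i j ≠ 0) ∧ (∀ i, ∑ j, z i j = a i) ∧ (∀ j, ∑ i, z i j = b j) := by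
  classical
  have ha0 : ∀ i j, a i = 0 → y i j = 0 := by
    intro i j h
    have h1 := hrow i
    rw [h, Nat.cast_zero, sum_eq_zero_iff_of_nonneg fun j _ => hy i j] at h1
    exact h1 j (mem_univ _)
  have hb0 : ∀ i j, b j = 0 → y i j = 0 := by
    intro i j h
    have h1 := hcol j
    rw [h, Nat.cast_zero, sum_eq_zero_iff_of_nonneg fun i _ => hy i j] at h1
    exact h1 i (mem_univ _)
  have hab : ∑ i, a i = ∑ j, b j := by
    have h1 : ((∑ i, a i : ℕ) : ℝ) = ((∑ j, b j : ℕ) : ℝ) := by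
      push_cast
      rw [sum_congr rfl fun i _ => (hrow i).symm, sum_comm]
      exact sum_congr rfl fun j _ => hcol j
    exact_mod_cast h1
  have hrow' : ∀ p : (Σ i, Fin (a i)), ∑ q : (Σ j, Fin (b j)), y p.1 q.1 / a p.1 / b q.1 = 1 := by
    intro p
    rw [sum_sig b fun j => y p.1 j / a p.1 / b j]
    have hp : (a p.1 : ℝ) ≠ 0 := by
      have := p.2.pos
      exact_mod_cast this.ne'
    have h1 : ∀ j, (b j : ℝ) * (y p.1 j / a p.1 / b j) = y p.1 j / a p.1 := by
      intro j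
      by_cases h2 : b j = 0
      · rw [hb0 _ j h2, h2]; simp
      · have h3 : (b j : ℝ) ≠ 0 := by exact_mod_cast h2
        rw [mul_div_cancel₀ _ h3]
    rw [sum_congr rfl fun j _ => h1 j, ← sum_div, hrow, div_self hp]
  have hcol' : ∀ q : (Σ j, Fin (b j)), ∑ p : (Σ i, Fin (a i)), y p.1 q.1 / a p.1 / b q.1 = 1 := by
    intro q
    rw [sum_sig a fun i => y i q.1 / a i / b q.1]
    have hq : (b q.1 : ℝ) ≠ 0 := by
      have := q.2.pos
      exact_mod_cast this.ne'
    have h1 : ∀ i, (a i : ℝ) * (y i q.1 / a i / b q.1) = y i q.1 / b q.1 := by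
      intro i
      by_cases h2 : a i = 0
      · rw [ha0 i _ h2, h2]; simp
      · have h3 : (a i : ℝ) ≠ 0 := by exact_mod_cast h2
        field_simp
    rw [sum_congr rfl fun j _ => h1 j, ← sum_div, hcol, div_self hq]
  have hall : ∀ A : Finset (Σ i, Fin (a i)), A.card ≤
      (A.biUnion fun p => univ.filter fun q : (Σ j, Fin (b j)) => y p.1 q.1 ≠ 0).card := by
    intro A
    set J := A.biUnion fun p => univ.filter fun q : (Σ j, Fin (b j)) => y p.1 q.1 ≠ 0 with hJ
    have h1 : (A.card : ℝ) = ∑ p ∈ A, ∑ q : (Σ j, Fin (b j)), y p.1 q.1 / a p.1 / b q.1 := by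
      rw [sum_congr rfl fun p _ => hrow' p, sum_const, nsmul_eq_mul, mul_one]
    have h2 : ∑ p ∈ A, ∑ q : (Σ j, Fin (b j)), y p.1 q.1 / a p.1 / b q.1 =
        ∑ p ∈ A, ∑ q ∈ J, y p.1 q.1 / a p.1 / b q.1 := by
      refine sum_congr rfl fun p hp => ?_
      refine (sum_subset (subset_univ J) fun q _ hq => ?_).symm
      have h3 : y p.1 q.1 = 0 := by
        by_contra h4
        exact hq (mem_biUnion.2 ⟨p, hp, mem_filter.2 ⟨mem_univ _, h4⟩⟩)
      rw [h3, zero_div, zero_div]
    have h3 : ∑ p ∈ A, ∑ q ∈ J, y p.1 q.1 / a p.1 / b q.1 ≤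
        ∑ q ∈ J, ∑ p : (Σ i, Fin (a i)), y p.1 q.1 / a p.1 / b q.1 := by
      rw [sum_comm]
      exact sum_le_sum fun q _ => sum_le_univ_sum_of_nonneg fun p =>
        div_nonneg (div_nonneg (hy _ _) (Nat.cast_nonneg _)) (Nat.cast_nonneg _)
    have h4 : ∑ q ∈ J, ∑ p : (Σ i, Fin (a i)), y p.1 q.1 / a p.1 / b q.1 = J.card := by
      rw [sum_congr rfl fun q _ => hcol' q, sum_const, nsmul_eq_mul, mul_one]
    have h5 : (A.card : ℝ) ≤ (J.card : ℝ) := by linarith
    exact_mod_cast h5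
  obtain ⟨g, hg, hg1⟩ := (Finset.all_card_le_biUnion_card_iff_exists_injective _).1 hall
  have hgb : Function.Bijective g := by
    rw [Fintype.bijective_iff_injective_and_card]
    exact ⟨hg, by rw [card_sig, card_sig, hab]⟩
  refine ⟨fun i j => (univ.filter fun k : Fin (a i) => (g ⟨i, k⟩).1 = j).card, ?_, ?_, ?_⟩
  · intro i j h
    obtain ⟨k, hk⟩ := card_pos.1 (Nat.pos_of_ne_zero h)
    have h1 := (mem_filter.1 hk).2
    have h2 := (mem_filter.1 (hg1 ⟨i, k⟩)).2
    rw [h1] at h2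
    exact h2
  · intro i
    have h1 := card_eq_sum_card_fiberwise (s := (univ : Finset (Fin (a i)))) (t := (univ : Finset V))
      (f := fun k => (g ⟨i, k⟩).1) (fun _ _ => mem_coe.2 (mem_univ _))
    rw [card_univ, Fintype.card_fin] at h1
    exact h1.symm
  · intro j
    have h1 : ∀ i, (univ.filter fun k : Fin (a i) => (g ⟨i, k⟩).1 = j).card =
        ∑ k : Fin (a i), if (g ⟨i, k⟩).1 = j then 1 else 0 := fun i => card_filter _ _
    rw [sum_congr rfl fun i _ => h1 i,
      ← Fintype.sum_sigma (fun p : (Σ i, Fin (a i)) => if (g p).1 = j then 1 else 0),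
      hgb.sum_comp (fun q : (Σ j, Fin (b j)) => if q.1 = j then 1 else 0), Fintype.sum_sigma, sum_eq_single j]
    · simp
    · intro k _ hk
      simp [hk]
    · intro h; exact absurd (mem_univ _) h

/-- INTEGRALITY. -/
theorem round (x : V → V → ℕ) (y : V → V → ℝ) (hy : ∀ i j, 0 ≤ y i j)
    (hrow : ∀ i, ∑ j, y i j = ∑ j, (x i j : ℝ)) (hcol : ∀ j, ∑ i, y i j = ∑ i, (x i j : ℝ)) :
    ∃ z : V → V → ℕ, (∀ i j, z i j ≠ 0 → y i j ≠ 0) ∧ (∀ i, ∑ j, z i j = ∑ j, x i j) ∧
      (∀ j, ∑ i, z i j = ∑ i, x i j) :=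
  round_aux (fun i => ∑ j, x i j) (fun j => ∑ i, x i j) y hy
    (fun i => by rw [hrow]; push_cast; rfl) (fun j => by rw [hcol]; push_cast; rfl)

end H20S
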