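import Pool.Agent.Lib.H63F.D
import Pool.Agent.Lib.H56Z.X0

/-!
# H20S, file Z: a natural flow with the degrees of a bitonic tour on an acyclic set of arcs is an integral fractional
Hamiltonian cycle
-/

set_option autoImplicit false
set_option linter.unusedSectionVars false

namespace H20S

open Finset H63F

variable {V : Type*} [Fintype V] [DecidableEq V] {r : V → ℕ} {f l : V} {z : V → V → ℕ}

/-- The weight of the edge `e`. -/
noncomputable def zy (z : V → V → ℕ) (e : Sym2 V) : ℝ := ∑ i, ∑ j, if e = s(i, j) then (z i j : ℝ) else 0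

private theorem zy_cut (S : Finset V) : cutw (zy z) S = ∑ i, ∑ j, (z i j : ℝ) * px s(i, j) S := by
  unfold cutw zy
  have h1 : ∀ e : Sym2 V, (∑ i, ∑ j, if e = s(i, j) then (z i j : ℝ) else 0) * px e S =
      ∑ i, ∑ j, if e = s(i, j) then (z i j : ℝ) * px e S else 0 := by
    intro e
    rw [sum_mul]
    refine sum_congr rfl fun i _ => ?_
    rw [sum_mul]
    refine sum_congr rfl fun j _ => ?_
    split_ifs <;> ring
  rw [sum_congr rfl fun e _ => h1 e, sum_comm]
  refine sum_congr rfl fun i _ => ?_
  rw [sum_comm]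
  refine sum_congr rfl fun j _ => ?_
  rw [sum_ite_eq' univ s(i, j), if_pos (mem_univ _)]

private theorem px_eq' (a b : V) (S : Finset V) :
    px s(a, b) S = (if a ∈ S ∧ b ∉ S then 1 else 0) + (if b ∈ S ∧ a ∉ S then 1 else 0) := by
  by_cases ha : a ∈ S
  · by_cases hb : b ∈ S
    · rw [H56Z.px_zero ⟨fun _ => hb, fun _ => ha⟩, if_neg (fun h => h.2 hb), if_neg (fun h => h.2 ha), add_zero]
    · rw [H56Z.px_one ha hb, if_pos ⟨ha, hb⟩, if_neg (fun h => hb h.1), add_zero]
  · by_cases hb : b ∈ S
    · rw [Sym2.eq_swap, H56Z.px_one hb ha, if_neg (fun h => ha h.1), if_pos ⟨hb, ha⟩, zero_add]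
    · rw [H56Z.px_zero ⟨fun h => absurd h ha, fun h => absurd h hb⟩, if_neg (fun h => ha h.1),
        if_neg (fun h => hb h.1), add_zero]

private theorem zy_mk (hz : ∀ i j, z i j ≠ 0 → r i < r j) {a b : V} (hab : z a b ≠ 0) : zy z s(a, b) = z a b := by
  unfold zy
  rw [sum_eq_single a, sum_eq_single b]
  · rw [if_pos rfl]
  · intro j _ hj
    rw [if_neg]
    intro h
    rcases Sym2.eq_iff.1 h with ⟨_, h2⟩ | ⟨h1, h2⟩
    · exact hj h2.symm
    · have := hz a b hab
      rw [h2] at this
      omega
  · intro h; exact absurd (mem_univ _) h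
  · intro i _ hi
    refine sum_eq_zero fun j _ => ?_
    by_cases h : s(a, b) = s(i, j)
    · rw [if_pos h]
      rcases Sym2.eq_iff.1 h with ⟨h1, _⟩ | ⟨h1, h2⟩
      · exact absurd h1.symm hi
      · by_contra h3
        have h4 : z i j ≠ 0 := fun h5 => h3 (by rw [h5]; norm_num)
        have h5 := hz i j h4
        have h6 := hz a b hab
        rw [h1, h2] at h6
        omega
    · rw [if_neg h]
  · intro h; exact absurd (mem_univ _) h

private theorem zy_zero {a b : V} (h1 : z a b = 0) (h2 : z b a = 0) : zy z s(a, b) = 0 := by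
  unfold zy
  refine sum_eq_zero fun i _ => sum_eq_zero fun j _ => ?_
  by_cases h : s(a, b) = s(i, j)
  · rw [if_pos h]
    rcases Sym2.eq_iff.1 h with ⟨h3, h4⟩ | ⟨h3, h4⟩
    · rw [← h3, ← h4, h1]; norm_num
    · rw [← h3, ← h4, h2]; norm_num
  · rw [if_neg h]

/-- A natural flow with the degrees of a bitonic tour. -/
theorem fracHam_of_nat (hfl : f ≠ l) (hV : 3 ≤ Fintype.card V) (hz : ∀ i j, z i j ≠ 0 → r i < r j)
    (hrow : ∀ i, ∑ j, z i j = if i = f then 2 else if i = l then 0 else 1)
    (hcol : ∀ j, ∑ i, z i j = if j = f then 0 else if j = l then 2 else 1)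
    {G : Finset (Sym2 V)} (hG : ∀ i j, z i j ≠ 0 → s(i, j) ∈ G) (hloop : ∀ v, s(v, v) ∉ G) :
    ∃ y : Sym2 V → ℝ, FracHam G y ∧ ∀ e, y e = 0 ∨ y e = 1 := by
  classical
  have hr1 : ∀ i j, z i j ≤ if i = f then 2 else if i = l then 0 else 1 := fun i j => by
    rw [← hrow i]
    exact single_le_sum (f := fun j => z i j) (fun _ _ => Nat.zero_le _) (mem_univ j)
  have hc1 : ∀ i j, z i j ≤ if j = f then 0 else if j = l then 2 else 1 := fun i j => by
    rw [← hcol j]
    exact single_le_sum (f := fun i => z i j) (fun _ _ => Nat.zero_le _) (mem_univ i)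
  -- an arc to a vertex of larger rank
  have hout : ∀ i, i ≠ l → ∃ j, z i j ≠ 0 := by
    intro i hi
    by_contra hcon
    push Not at hcon
    have h1 := hrow i
    rw [sum_eq_zero fun j _ => hcon j] at h1
    split_ifs at h1
  have hle1 : ∀ i j, z i j ≤ 1 := by
    intro i j
    by_contra hcon
    push Not at hcon
    have h1 : i = f := by
      by_contra h2
      have h3 := hr1 i j
      rw [if_neg h2] at h3
      split_ifs at h3 <;> omega
    have h2 : j = l := by
      by_contra h3
      have h4 := hc1 i j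
      rw [if_neg h3] at h4
      split_ifs at h4 <;> omega
    have h6 : (univ \ {f, l} : Finset V).Nonempty := by
      rw [← card_pos, card_sdiff_of_subset (subset_univ _), card_univ, card_pair hfl]
      omega
    obtain ⟨m, hm1, hm2⟩ := exists_max_image _ r h6
    rw [mem_sdiff, mem_insert, mem_singleton, not_or] at hm1
    obtain ⟨k, hk⟩ := hout m hm1.2.2
    have h7 := hz m k hk
    have h8 : k = l := by
      by_contra h9
      have h10 : k ≠ f := by
        rintro rfl
        have := hc1 m k
        rw [if_pos rfl] at this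
        omega
      have := hm2 k (by
        rw [mem_sdiff, mem_insert, mem_singleton, not_or]
        exact ⟨mem_univ _, h10, h9⟩)
      omega
    have h9 := hcol l
    rw [if_neg hfl.symm, if_pos rfl] at h9
    have h10 : ∑ i ∈ ({f, m} : Finset V), z i l ≤ ∑ i, z i l :=
      sum_le_sum_of_subset (subset_univ _)
    rw [sum_pair (Ne.symm hm1.2.1), h9, ← h2] at h10
    rw [h1] at hcon
    rw [h8, ← h2] at hk
    omega
  have hint : ∀ e, zy z e = 0 ∨ zy z e = 1 := by
    intro e
    induction e with | _ a b
    by_cases h1 : z a b = 0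
    · by_cases h2 : z b a = 0
      · exact Or.inl (zy_zero h1 h2)
      · right
        rw [Sym2.eq_swap, zy_mk hz h2]
        have := hle1 b a
        have h3 : z b a = 1 := by omega
        rw [h3]; norm_num
    · right
      rw [zy_mk hz h1]
      have := hle1 a b
      have h3 : z a b = 1 := by omega
      rw [h3]; norm_num
  have hrowR : ∀ i, ∑ j, (z i j : ℝ) = (if i = f then 2 else if i = l then 0 else 1) := by
    intro i
    rw [← Nat.cast_sum, hrow i]
    split_ifs <;> norm_num
  have hcolR : ∀ j, ∑ i, (z i j : ℝ) = (if j = f then 0 else if j = l then 2 else 1) := by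
    intro j
    rw [← Nat.cast_sum, hcol j]
    split_ifs <;> norm_num
  refine ⟨zy z, ⟨?_, ?_, hloop, ?_, ?_⟩, hint⟩
  · intro e
    rcases hint e with h | h <;> rw [h] <;> norm_num
  · intro e he
    unfold zy
    refine sum_eq_zero fun i _ => sum_eq_zero fun j _ => ?_
    by_cases h : e = s(i, j)
    · rw [if_pos h]
      by_contra h1
      have h2 : z i j ≠ 0 := fun h3 => h1 (by rw [h3]; norm_num)
      exact he (h ▸ hG i j h2)
    · rw [if_neg h]
  · intro v
    rw [zy_cut]
    have h1 : ∀ i j, (z i j : ℝ) * px s(i, j) {v} =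
        (if i = v then (z i j : ℝ) else 0) + (if j = v then (z i j : ℝ) else 0) := by
      intro i j
      by_cases h0 : z i j = 0
      · rw [h0]; simp
      have h2 : i ≠ j := fun h3 => by have := hz i j h0; rw [h3] at this; omega
      rw [px_eq']
      simp only [mem_singleton]
      by_cases h3 : i = v
      · have h4 : j ≠ v := fun h5 => h2 (h3.trans h5.symm)
        rw [if_pos ⟨h3, h4⟩, if_pos h3, if_neg (fun h => h4 h.1), if_neg h4]; ring
      · by_cases h4 : j = v
        · rw [if_neg (fun h => h3 h.1), if_neg h3, if_pos ⟨h4, h3⟩, if_pos h4]; ring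
        · rw [if_neg (fun h => h3 h.1), if_neg h3, if_neg (fun h => h4 h.1), if_neg h4]; ring
    have h2 : ∑ i, ∑ j, (if i = v then (z i j : ℝ) else 0) = ∑ j, (z v j : ℝ) := by
      rw [sum_eq_single v]
      · exact sum_congr rfl fun j _ => if_pos rfl
      · intro i _ hi
        exact sum_eq_zero fun j _ => if_neg hi
      · intro h; exact absurd (mem_univ _) h
    have h3 : ∑ i, ∑ j, (if j = v then (z i j : ℝ) else 0) = ∑ i, (z i v : ℝ) := by
      refine sum_congr rfl fun i _ => ?_
      rw [sum_ite_eq' univ v, if_pos (mem_univ _)]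
    rw [sum_congr rfl fun i _ => sum_congr rfl fun j _ => h1 i j,
      sum_congr rfl fun i _ => sum_add_distrib, sum_add_distrib, h2, h3, hrowR, hcolR]
    by_cases h4 : v = f
    · rw [if_pos h4, if_pos h4]; norm_num
    · rw [if_neg h4, if_neg h4]
      by_cases h5 : v = l
      · rw [if_pos h5, if_pos h5]; norm_num
      · rw [if_neg h5, if_neg h5]; norm_num
  · intro S hS hS'
    rw [zy_cut]
    have h1 : ∑ i, ∑ j, (z i j : ℝ) * px s(i, j) S = ∑ i, ∑ j, (if i ∈ S ∧ j ∉ S then (z i j : ℝ) else 0) +
        ∑ i, ∑ j, (if j ∈ S ∧ i ∉ S then (z i j : ℝ) else 0) := by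
      rw [← sum_add_distrib]
      refine sum_congr rfl fun i _ => ?_
      rw [← sum_add_distrib]
      refine sum_congr rfl fun j _ => ?_
      rw [px_eq']
      by_cases ha : i ∈ S <;> by_cases hb : j ∈ S <;> simp [ha, hb]
    have h2 : ∑ i, ∑ j, (if i ∈ S ∧ j ∉ S then (z i j : ℝ) else 0) -
        ∑ i, ∑ j, (if j ∈ S ∧ i ∉ S then (z i j : ℝ) else 0) =
        2 * (if f ∈ S then 1 else 0) - 2 * (if l ∈ S then 1 else 0) := by
      have h3 : ∑ i, ∑ j, (if i ∈ S ∧ j ∉ S then (z i j : ℝ) else 0) -
          ∑ i, ∑ j, (if j ∈ S ∧ i ∉ S then (z i j : ℝ) else 0) =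
          ∑ i, ∑ j, (if i ∈ S then (z i j : ℝ) else 0) - ∑ i, ∑ j, (if j ∈ S then (z i j : ℝ) else 0) := by
        rw [← sum_sub_distrib, ← sum_sub_distrib]
        refine sum_congr rfl fun i _ => ?_
        rw [← sum_sub_distrib, ← sum_sub_distrib]
        refine sum_congr rfl fun j _ => ?_
        by_cases ha : i ∈ S <;> by_cases hb : j ∈ S <;> simp [ha, hb]
      have h4 : ∑ i, ∑ j, (if i ∈ S then (z i j : ℝ) else 0) =
          ∑ i ∈ S, (if i = f then 2 else if i = l then 0 else 1) := by
        rw [← sum_filter_add_sum_filter_not univ (fun i => i ∈ S)]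
        rw [sum_eq_zero (s := univ.filter fun i => ¬ i ∈ S), add_zero, filter_mem_eq_inter, univ_inter]
        · refine sum_congr rfl fun i hi => ?_
          rw [← hrowR i]
          exact sum_congr rfl fun j _ => if_pos hi
        · intro i hi
          exact sum_eq_zero fun j _ => if_neg (mem_filter.1 hi).2
      have h5 : ∑ i, ∑ j, (if j ∈ S then (z i j : ℝ) else 0) =
          ∑ j ∈ S, (if j = f then 0 else if j = l then 2 else 1) := by
        rw [sum_comm, ← sum_filter_add_sum_filter_not univ (fun i => i ∈ S)]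
        rw [sum_eq_zero (s := univ.filter fun i => ¬ i ∈ S), add_zero, filter_mem_eq_inter, univ_inter]
        · refine sum_congr rfl fun i hi => ?_
          rw [← hcolR i]
          exact sum_congr rfl fun j _ => if_pos hi
        · intro i hi
          exact sum_eq_zero fun j _ => if_neg (mem_filter.1 hi).2
      rw [h3, h4, h5, ← sum_sub_distrib]
      have h6 : ∀ i : V, (if i = f then (2 : ℝ) else if i = l then 0 else 1) -
          (if i = f then 0 else if i = l then 2 else 1) = (if i = f then 2 else 0) - (if i = l then 2 else 0) := by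
        intro i
        by_cases h7 : i = f
        · rw [if_pos h7, if_pos h7, if_pos h7, if_neg (h7 ▸ hfl)]
        · rw [if_neg h7, if_neg h7, if_neg h7]
          by_cases h8 : i = l
          · rw [if_pos h8, if_pos h8, if_pos h8]
          · rw [if_neg h8, if_neg h8, if_neg h8]; norm_num
      rw [sum_congr rfl fun i _ => h6 i, sum_sub_distrib, sum_ite_eq' S f, sum_ite_eq' S l]
      by_cases h7 : f ∈ S <;> by_cases h8 : l ∈ S <;> simp [h7, h8]
    have hnn : ∀ (p : V → V → Prop) [∀ i j, Decidable (p i j)],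
        0 ≤ ∑ i, ∑ j, (if p i j then (z i j : ℝ) else 0) := fun p _ =>
      sum_nonneg fun i _ => sum_nonneg fun j _ => by split_ifs <;> positivity
    have hone : ∀ (p : V → V → Prop) [∀ i j, Decidable (p i j)] (a b : V), p a b → z a b ≠ 0 →
        1 ≤ ∑ i, ∑ j, (if p i j then (z i j : ℝ) else 0) := by
      intro p _ a b hp hab
      have h3 : (1 : ℝ) ≤ z a b := by exact_mod_cast Nat.one_le_iff_ne_zero.2 hab
      have h4 := single_le_sum (s := univ) (f := fun j => if p a j then (z a j : ℝ) else 0)
        (fun j _ => by split_ifs <;> positivity) (mem_univ b)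
      have h5 := single_le_sum (s := univ) (f := fun i => ∑ j, if p i j then (z i j : ℝ) else 0)
        (fun i _ => sum_nonneg fun j _ => by split_ifs <;> positivity) (mem_univ a)
      simp only [if_pos hp] at h4
      linarith
    have hL := hnn (fun i j => i ∈ S ∧ j ∉ S)
    have hE := hnn (fun i j => j ∈ S ∧ i ∉ S)
    rw [h1]
    by_cases hf : f ∈ S
    · by_cases hl : l ∈ S
      · rw [if_pos hf, if_pos hl] at h2
        have h4 : (univ \ S).Nonempty := by
          rw [sdiff_nonempty]
          exact fun h5 => hS' (eq_univ_iff_forall.2 fun v => h5 (mem_univ v))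
        obtain ⟨m, hm1, hm2⟩ := exists_max_image _ r h4
        have hmS : m ∉ S := (mem_sdiff.1 hm1).2
        obtain ⟨k, hk⟩ := hout m fun h5 => hmS (h5 ▸ hl)
        have h7 : k ∈ S := by
          by_contra h8
          have h9 := hm2 _ (mem_sdiff.2 ⟨mem_univ _, h8⟩)
          have h10 := hz m k hk
          omega
        have h8 := hone (fun i j => j ∈ S ∧ i ∉ S) m k ⟨h7, hmS⟩ hk
        linarith
      · rw [if_pos hf, if_neg hl] at h2
        linarith
    · by_cases hl : l ∈ S
      · rw [if_neg hf, if_pos hl] at h2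
        linarith
      · rw [if_neg hf, if_neg hl] at h2
        obtain ⟨m, hmS, hm2⟩ := exists_max_image _ r hS
        obtain ⟨k, hk⟩ := hout m fun h5 => hl (h5 ▸ hmS)
        have h7 : k ∉ S := by
          intro h8
          have h9 := hm2 _ h8
          have h10 := hz m k hk
          omega
        have h8 := hone (fun i j => i ∈ S ∧ j ∉ S) m k ⟨hmS, h7⟩ hk
        linarith

end H20S
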